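import Mathlib

/-!
# Greedy embedding of rooted trees in a median order
-/

namespace Pool.Agent.H68.Tr

open Finset

open Classical in
/-- In an interval closed under children the number of roots is at most the number of leaves. -/
lemma roots_le_leaves {V : Type} (X : Finset V) (p : V → V) (Q : V → Prop) :
    (X.filter Q).card ≤ (X.filter (fun x => ∀ c ∈ X, ¬ Q c → p c ≠ x)).card := by
  have h1 : X.filter (fun x => ¬ ∀ c ∈ X, ¬ Q c → p c ≠ x) ⊆ (X.filter (fun c => ¬ Q c)).image p := by
    intro x hx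
    rw [mem_filter] at hx
    obtain ⟨hx, hn⟩ := hx
    push Not at hn
    obtain ⟨c, hc, hq, hpc⟩ := hn
    rw [mem_image]
    exact ⟨c, mem_filter.2 ⟨hc, hq⟩, hpc⟩
  have h2 := (card_le_card h1).trans card_image_le
  have h3 := card_filter_add_card_filter_not (s := X) Q
  have h4 := card_filter_add_card_filter_not (s := X) (fun x => ∀ c ∈ X, ¬ Q c → p c ≠ x)
  omega

/-- The state of the greedy procedure at time `i`. -/
structure St {V : Type} (U : Finset V) (r : V) (p : V → V) (Rel : ℕ → ℕ → Prop)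
    (i : ℕ) (S : Finset V) (f : V → ℕ) : Prop where
  sub : S ⊆ U
  root : r ∈ S
  f0 : f r = 0
  le : ∀ v ∈ S, f v ≤ i
  inj : Set.InjOn f S
  par : ∀ v ∈ S, v ≠ r → p v ∈ S ∧ f (p v) < f v ∧ Rel (f (p v)) (f v)
  fifo : ∀ t ≤ i, ∀ u ∈ S, f u < t → (∃ c ∈ U, c ≠ r ∧ p c = u ∧ (c ∈ S → t ≤ f c)) →
    Rel (f u) t → ∃ w ∈ S, f w = t ∧ w ≠ r ∧ f (p w) ≤ f u

open Classical in
lemma step {V : Type} (U : Finset V) (r : V) (p : V → V) (Rel : ℕ → ℕ → Prop)
    (i : ℕ) (S : Finset V) (f : V → ℕ) (h : St U r p Rel i S f) :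
    ∃ S' f', St U r p Rel (i + 1) S' f' := by
  by_cases hex : ∃ u ∈ S, Rel (f u) (i + 1) ∧ ∃ c ∈ U, c ≠ r ∧ p c = u ∧ c ∉ S
  · -- choose the earliest active vertex
    let A := S.filter (fun u => Rel (f u) (i + 1) ∧ ∃ c ∈ U, c ≠ r ∧ p c = u ∧ c ∉ S)
    have hA : A.Nonempty := by
      obtain ⟨u, hu, h1⟩ := hex
      exact ⟨u, mem_filter.2 ⟨hu, h1⟩⟩
    obtain ⟨u, huA, hmin⟩ := exists_min_image A f hA
    rw [mem_filter] at huA
    obtain ⟨huS, huR, c, hcU, hcr, hpc, hcS⟩ := huA
    have hf : ∀ v ∈ S, Function.update f c (i + 1) v = f v := fun v hv =>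
      Function.update_of_ne (fun e : v = c => hcS (e ▸ hv)) _ _
    have hfc : Function.update f c (i + 1) c = i + 1 := Function.update_self _ _ _
    refine ⟨insert c S, Function.update f c (i + 1), ⟨?_, ?_, ?_, ?_, ?_, ?_, ?_⟩⟩
    · exact insert_subset hcU h.sub
    · exact mem_insert_of_mem h.root
    · rw [hf r h.root]; exact h.f0
    · intro v hv
      rcases mem_insert.1 hv with rfl | hv
      · rw [hfc]
      · rw [hf v hv]; exact (h.le v hv).trans (Nat.le_succ i)
    · intro v hv w hw hvw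
      rw [mem_coe, mem_insert] at hv hw
      rcases hv with rfl | hv <;> rcases hw with rfl | hw
      · rfl
      · rw [hfc, hf w hw] at hvw
        have := h.le w hw; omega
      · rw [hfc, hf v hv] at hvw
        have := h.le v hv; omega
      · rw [hf v hv, hf w hw] at hvw
        exact h.inj hv hw hvw
    · intro v hv hvr
      rcases mem_insert.1 hv with rfl | hv
      · rw [hfc, hpc, hf u huS]
        exact ⟨mem_insert_of_mem huS, Nat.lt_succ_of_le (h.le u huS), huR⟩
      · have hp := h.par v hv hvr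
        rw [hf v hv, hf (p v) hp.1]
        exact ⟨mem_insert_of_mem hp.1, hp.2⟩
    · intro t ht u' hu' hut hact hR
      rcases mem_insert.1 hu' with rfl | hu'
      · rw [hfc] at hut; omega
      · rw [hf u' hu'] at hut hR ⊢
        obtain ⟨c', hc'U, hc'r, hpc', hc'⟩ := hact
        rcases Nat.lt_or_ge i t with hti | hti
        · have hti' : t = i + 1 := by omega
          subst hti'
          have hc'S : c' ∉ S := by
            intro hs
            have h1 := hc' (mem_insert_of_mem hs)
            rw [hf c' hs] at h1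
            have := h.le c' hs; omega
          have hu'A : u' ∈ A := mem_filter.2 ⟨hu', hR, c', hc'U, hc'r, hpc', hc'S⟩
          refine ⟨c, mem_insert_self _ _, hfc, hcr, ?_⟩
          rw [hpc, hf u huS]
          exact hmin u' hu'A
        · obtain ⟨w, hwS, hwt, hwr, hw⟩ := h.fifo t hti u' hu' hut ⟨c', hc'U, hc'r, hpc', fun hs => by
            have h1 := hc' (mem_insert_of_mem hs)
            rwa [hf c' hs] at h1⟩ hR
          refine ⟨w, mem_insert_of_mem hwS, ?_, hwr, ?_⟩
          · rw [hf w hwS]; exact hwt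
          · rw [hf (p w) (h.par w hwS hwr).1]; exact hw
  · refine ⟨S, f, ⟨h.sub, h.root, h.f0, fun v hv => (h.le v hv).trans (Nat.le_succ i), h.inj, h.par, ?_⟩⟩
    intro t ht u hu hut hact hR
    rcases Nat.lt_or_ge i t with hti | hti
    · exfalso
      have hti' : t = i + 1 := by omega
      subst hti'
      obtain ⟨c, hcU, hcr, hpc, hc⟩ := hact
      refine hex ⟨u, hu, hR, c, hcU, hcr, hpc, fun hs => ?_⟩
      have h1 := hc hs
      have := h.le c hs; omega
    · exact h.fifo t hti u hu hut hact hR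

lemma start {V : Type} (U : Finset V) (r : V) (hr : r ∈ U) (p : V → V) (Rel : ℕ → ℕ → Prop) :
    St U r p Rel 0 {r} (fun _ => 0) := by
  refine ⟨by simpa using hr, mem_singleton_self r, rfl, fun _ _ => le_rfl, ?_, ?_, ?_⟩
  · intro a ha b hb _
    rw [mem_coe, mem_singleton] at ha hb
    rw [ha, hb]
  · intro v hv hvr
    exact absurd (mem_singleton.1 hv) hvr
  · intro t ht u _ hut
    change 0 < t at hut
    omega

lemma exists_St {V : Type} (U : Finset V) (r : V) (hr : r ∈ U) (p : V → V) (Rel : ℕ → ℕ → Prop)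
    (i : ℕ) : ∃ S f, St U r p Rel i S f := by
  induction i with
  | zero => exact ⟨{r}, fun _ => 0, start U r hr p Rel⟩
  | succ n ih =>
    obtain ⟨S, f, h⟩ := ih
    exact step U r p Rel n S f h

open Classical in
/-- Before completion, at every time the number of failures is at most the number of leaves hit. -/
lemma count {V : Type} (U : Finset V) (r : V) (p : V → V) (d : V → ℕ) (Rel : ℕ → ℕ → Prop)
    (hp : ∀ v ∈ U, v ≠ r → p v ∈ U ∧ d (p v) < d v) (i : ℕ)
    (tour : ∀ s t, s < t → t ≤ i → ¬ Rel s t → Rel t s)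
    (med : ∀ j t, j < t → t ≤ i → ((Ioc j t).filter (fun s => Rel s j)).card ≤
      ((Ioc j t).filter (fun s => Rel j s)).card)
    (S : Finset V) (f : V → ℕ) (h : St U r p Rel i S f) (hne : ∃ v ∈ U, v ∉ S) :
    ∀ t ≤ i, ((range (t + 1)).filter (fun s => ∀ w ∈ S, f w ≠ s)).card ≤
      (S.filter (fun v => f v ≤ t ∧ ∀ c ∈ U, c ≠ r → p c ≠ v)).card := by
  intro t
  induction t using Nat.strong_induction_on with
  | _ t ih =>
  intro hti
  by_cases hit : ∃ w ∈ S, f w = t
  · rcases Nat.eq_zero_or_pos t with rfl | ht0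
    · have : (range (0 + 1)).filter (fun s => ∀ w ∈ S, f w ≠ s) = ∅ := by
        rw [filter_eq_empty_iff]
        intro s hs hw
        have hs0 : s = 0 := by rw [mem_range] at hs; omega
        exact hw r h.root (by rw [hs0]; exact h.f0)
      rw [this, card_empty]
      exact Nat.zero_le _
    · have h1 := ih (t - 1) (by omega) (by omega)
      have e : t - 1 + 1 = t := by omega
      rw [e] at h1
      have h2 : (range (t + 1)).filter (fun s => ∀ w ∈ S, f w ≠ s) ⊆
          (range t).filter (fun s => ∀ w ∈ S, f w ≠ s) := by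
        intro s hs
        rw [mem_filter, mem_range] at hs ⊢
        refine ⟨?_, hs.2⟩
        obtain ⟨w, hw, hwt⟩ := hit
        have := hs.2 w hw
        omega
      have h3 : S.filter (fun v => f v ≤ t - 1 ∧ ∀ c ∈ U, c ≠ r → p c ≠ v) ⊆
          S.filter (fun v => f v ≤ t ∧ ∀ c ∈ U, c ≠ r → p c ≠ v) := by
        intro v hv
        rw [mem_filter] at hv ⊢
        exact ⟨hv.1, by omega, hv.2.2⟩
      exact (card_le_card h2).trans (h1.trans (card_le_card h3))
  · push Not at hit
    have ht0 : 0 < t := by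
      rcases Nat.eq_zero_or_pos t with rfl | h0
      · exact absurd h.f0 (hit r h.root)
      · exact h0
    -- an active vertex
    let A := S.filter (fun u => f u < t ∧ ∃ c ∈ U, c ≠ r ∧ p c = u ∧ (c ∈ S → t ≤ f c))
    have hA : A.Nonempty := by
      obtain ⟨v0, hv0, hv0S⟩ := hne
      obtain ⟨v, hv, hmin⟩ := exists_min_image (U.filter (fun v => v ∈ S → t ≤ f v)) d
        ⟨v0, mem_filter.2 ⟨hv0, fun hh => absurd hh hv0S⟩⟩
      rw [mem_filter] at hv
      have hvr : v ≠ r := by
        rintro rfl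
        have := hv.2 h.root
        rw [h.f0] at this; omega
      have hpv := hp v hv.1 hvr
      have hn : ¬ (p v ∈ S → t ≤ f (p v)) := by
        intro hh
        have := hmin (p v) (mem_filter.2 ⟨hpv.1, hh⟩)
        omega
      push Not at hn
      exact ⟨p v, mem_filter.2 ⟨hn.1, hn.2, v, hv.1, hvr, rfl, hv.2⟩⟩
    obtain ⟨u, huA, hmax⟩ := exists_max_image A f hA
    rw [mem_filter] at huA
    obtain ⟨huS, hut, c0, hc0U, hc0r, hpc0, hc0⟩ := huA
    let X := S.filter (fun w => f u < f w ∧ f w < t)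
    have hroots : (X.filter (fun w => f (p w) ≤ f u)).card ≤
        (X.filter (fun x => ∀ c ∈ X, ¬ f (p c) ≤ f u → p c ≠ x)).card := by
      convert roots_le_leaves X p (fun w => f (p w) ≤ f u)
    -- leaves
    have hleaf : X.filter (fun x => ∀ c ∈ X, ¬ f (p c) ≤ f u → p c ≠ x) ⊆
        X.filter (fun v => ∀ c ∈ U, c ≠ r → p c ≠ v) := by
      intro x hx
      rw [mem_filter] at hx ⊢
      refine ⟨hx.1, fun c hc hcr hpc => ?_⟩
      have hxX := mem_filter.1 hx.1
      have hcc : c ∈ S ∧ f c < t := by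
        by_contra hcon
        have : x ∈ A := mem_filter.2 ⟨hxX.1, hxX.2.2, c, hc, hcr, hpc, fun hs => by
          by_contra hlt
          exact hcon ⟨hs, by omega⟩⟩
        have := hmax x this
        omega
      have hpar := h.par c hcc.1 hcr
      rw [hpc] at hpar
      refine hx.2 c (mem_filter.2 ⟨hcc.1, by omega, hcc.2⟩) ?_ hpc
      rw [hpc]; omega
    have hfail : (Ioc (f u) t).filter (fun s => ∀ w ∈ S, f w ≠ s) ⊆
        (Ioc (f u) t).filter (fun s => Rel s (f u)) := by
      intro s hs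
      rw [mem_filter, mem_Ioc] at hs ⊢
      refine ⟨hs.1, tour (f u) s hs.1.1 (by omega) (fun hR => ?_)⟩
      obtain ⟨w, hw, hws, _⟩ := h.fifo s (by omega) u huS hs.1.1
        ⟨c0, hc0U, hc0r, hpc0, fun hh => hs.1.2.trans (hc0 hh)⟩ hR
      exact hs.2 w hw hws
    have hout : (Ioc (f u) t).filter (fun s => Rel (f u) s) ⊆
        (X.filter (fun w => f (p w) ≤ f u)).image f := by
      intro s hs
      rw [mem_filter, mem_Ioc] at hs
      obtain ⟨w, hw, hws, hwr, hwp⟩ := h.fifo s (by omega) u huS hs.1.1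
        ⟨c0, hc0U, hc0r, hpc0, fun hh => hs.1.2.trans (hc0 hh)⟩ hs.2
      rw [mem_image]
      refine ⟨w, mem_filter.2 ⟨mem_filter.2 ⟨hw, by omega, ?_⟩, hwp⟩, hws⟩
      have := hit w hw
      omega
    have c1 := card_le_card hfail
    have c2 := med (f u) t hut hti
    have c3 := (card_le_card hout).trans card_image_le
    have c4 := card_le_card hleaf
    have hj := ih (f u) hut (by omega)
    have c5 : ((range (t + 1)).filter (fun s => ∀ w ∈ S, f w ≠ s)).card ≤
        ((range (f u + 1)).filter (fun s => ∀ w ∈ S, f w ≠ s)).card +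
        ((Ioc (f u) t).filter (fun s => ∀ w ∈ S, f w ≠ s)).card := by
      refine (card_le_card ?_).trans (card_union_le _ _)
      intro s hs
      rw [mem_filter, mem_range] at hs
      rw [mem_union, mem_filter, mem_filter, mem_range, mem_Ioc]
      rcases Nat.lt_or_ge (f u) s with h1 | h1
      · exact Or.inr ⟨⟨h1, by omega⟩, hs.2⟩
      · exact Or.inl ⟨by omega, hs.2⟩
    have c6 : (S.filter (fun v => f v ≤ f u ∧ ∀ c ∈ U, c ≠ r → p c ≠ v)).card +
        (X.filter (fun v => ∀ c ∈ U, c ≠ r → p c ≠ v)).card ≤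
        (S.filter (fun v => f v ≤ t ∧ ∀ c ∈ U, c ≠ r → p c ≠ v)).card := by
      rw [← card_union_of_disjoint]
      · apply card_le_card
        intro v hv
        rw [mem_union, mem_filter, mem_filter] at hv
        rw [mem_filter]
        rcases hv with hv | hv
        · exact ⟨hv.1, by omega, hv.2.2⟩
        · have := mem_filter.1 hv.1
          exact ⟨this.1, by omega, hv.2⟩
      · rw [disjoint_left]
        intro v hv hv'
        rw [mem_filter] at hv hv'
        have := mem_filter.1 hv'.1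
        omega
    omega

open Classical in
/-- The greedy embedding: `i + 1` positions suffice if `i + 2 = |U| + #leaves`. -/
lemma embed {V : Type} (U : Finset V) (r : V) (hr : r ∈ U) (p : V → V) (d : V → ℕ)
    (Rel : ℕ → ℕ → Prop)
    (hp : ∀ v ∈ U, v ≠ r → p v ∈ U ∧ d (p v) < d v) (i : ℕ)
    (hi : U.card + (U.filter (fun v => ∀ c ∈ U, c ≠ r → p c ≠ v)).card ≤ i + 2)
    (tour : ∀ s t, s < t → t ≤ i → ¬ Rel s t → Rel t s)
    (med : ∀ j t, j < t → t ≤ i → ((Ioc j t).filter (fun s => Rel s j)).card ≤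
      ((Ioc j t).filter (fun s => Rel j s)).card) :
    ∃ f : V → ℕ, f r = 0 ∧ (∀ v ∈ U, f v ≤ i) ∧ Set.InjOn f U ∧
      (∀ v ∈ U, f v = 0 → v = r) ∧
      ∀ v ∈ U, v ≠ r → Rel (f (p v)) (f v) := by
  obtain ⟨S, f, h⟩ := exists_St U r hr p Rel i
  by_cases hSU : U ⊆ S
  · refine ⟨f, h.f0, fun v hv => h.le v (hSU hv), fun a ha b hb hab =>
      h.inj (hSU ha) (hSU hb) hab, fun v hv h0 => ?_, fun v hv hvr => (h.par v (hSU hv) hvr).2.2⟩
    exact h.inj (hSU hv) h.root (h0.trans h.f0.symm)
  · exfalso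
    have hne : ∃ v ∈ U, v ∉ S := by
      by_contra hcon
      push Not at hcon
      exact hSU hcon
    have hc := count U r p d Rel hp i tour med S f h hne i le_rfl
    obtain ⟨v0, hv0, hv0S⟩ := hne
    obtain ⟨v, hv, hmax⟩ := exists_max_image (U.filter (fun v => v ∉ S)) d
      ⟨v0, mem_filter.2 ⟨hv0, hv0S⟩⟩
    rw [mem_filter] at hv
    have hlv : v ∈ U.filter (fun v => ∀ c ∈ U, c ≠ r → p c ≠ v) := by
      rw [mem_filter]
      refine ⟨hv.1, fun c hc hcr hpc => ?_⟩
      have hcS : c ∉ S := fun hs => hv.2 (hpc ▸ (h.par c hs hcr).1)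
      have h1 := hmax c (mem_filter.2 ⟨hc, hcS⟩)
      have h2 := (hp c hc hcr).2
      rw [hpc] at h2
      omega
    have h1 : (S.filter (fun v => f v ≤ i ∧ ∀ c ∈ U, c ≠ r → p c ≠ v)).card <
        (U.filter (fun v => ∀ c ∈ U, c ≠ r → p c ≠ v)).card := by
      apply card_lt_card
      rw [ssubset_iff_of_subset]
      · exact ⟨v, hlv, fun hh => hv.2 (mem_filter.1 hh).1⟩
      · intro x hx
        rw [mem_filter] at hx ⊢
        exact ⟨h.sub hx.1, hx.2.2⟩
    have h2 : S.card < U.card := by
      apply card_lt_card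
      rw [ssubset_iff_of_subset h.sub]
      exact ⟨v, hv.1, hv.2⟩
    have h3 : i + 1 ≤ ((range (i + 1)).filter (fun s => ∀ w ∈ S, f w ≠ s)).card + S.card := by
      have e : range (i + 1) ⊆ (range (i + 1)).filter (fun s => ∀ w ∈ S, f w ≠ s) ∪ S.image f := by
        intro s hs
        rw [mem_union, mem_filter, mem_image]
        by_cases hh : ∀ w ∈ S, f w ≠ s
        · exact Or.inl ⟨hs, hh⟩
        · push Not at hh
          exact Or.inr hh
      have e2 := (card_le_card e).trans (card_union_le _ _)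
      rw [card_range] at e2
      have e3 : (S.image f).card ≤ S.card := card_image_le
      omega
    omega

end Pool.Agent.H68.Tr
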