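import Mathlib

/-!
# Rooting a tree
-/

namespace Pool.Agent.H68.Tr

open Finset

open Classical in
/-- Rooted form of a finite tree. -/
lemma rooted {V : Type} [Fintype V] (G : SimpleGraph V) (hG : G.IsTree) (r : V) :
    ∃ (p : V → V) (d : V → ℕ), (∀ v, v ≠ r → G.Adj (p v) v ∧ d (p v) < d v) ∧
      ∀ u v, G.Adj u v → (v ≠ r ∧ p v = u) ∨ (u ≠ r ∧ p u = v) := by
  have h1 : ∀ v : V, ∃ u : V, v ≠ r → G.Adj u v ∧ G.dist u r < G.dist v r := by
    intro v
    by_cases hv : v = r
    · exact ⟨r, fun h => absurd hv h⟩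
    · obtain ⟨w, hw⟩ := hG.1.exists_walk_length_eq_dist v r
      cases w with
      | nil => exact absurd rfl hv
      | cons h q =>
        rename_i u
        refine ⟨u, fun _ => ⟨h.symm, ?_⟩⟩
        rw [← hw, SimpleGraph.Walk.length_cons]
        exact Nat.lt_succ_of_le (SimpleGraph.dist_le q)
  choose p hp using h1
  refine ⟨p, fun v => G.dist v r, hp, fun u v huv => ?_⟩
  have hcard := hG.card_edgeFinset
  have hinj : Set.InjOn (fun v => s(p v, v)) (univ.erase r : Finset V) := by
    intro a ha b hb hab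
    rw [mem_coe, mem_erase] at ha hb
    simp only [Sym2.eq_iff] at hab
    rcases hab with hab | hab
    · exact hab.2
    · exfalso
      have ha' := (hp a ha.1).2
      have hb' := (hp b hb.1).2
      rw [hab.1] at ha'
      rw [← hab.2] at hb'
      omega
  have hsub : (univ.erase r : Finset V).image (fun v => s(p v, v)) ⊆ G.edgeFinset := by
    intro e he
    rw [mem_image] at he
    obtain ⟨v, hv, rfl⟩ := he
    rw [mem_erase] at hv
    rw [SimpleGraph.mem_edgeFinset, SimpleGraph.mem_edgeSet]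
    exact (hp v hv.1).1
  have hc : ((univ.erase r : Finset V).image (fun v => s(p v, v))).card = G.edgeFinset.card := by
    rw [card_image_of_injOn hinj, card_erase_of_mem (mem_univ r), card_univ]
    omega
  have heq := eq_of_subset_of_card_le hsub hc.ge
  have hm : s(u, v) ∈ G.edgeFinset := by
    rw [SimpleGraph.mem_edgeFinset, SimpleGraph.mem_edgeSet]; exact huv
  rw [← heq, mem_image] at hm
  obtain ⟨w, hw, hwe⟩ := hm
  rw [mem_erase] at hw
  rw [Sym2.eq_iff] at hwe
  rcases hwe with ⟨h1, h2⟩ | ⟨h1, h2⟩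
  · left; subst h2; exact ⟨hw.1, h1⟩
  · right; subst h2; exact ⟨hw.1, h1⟩

end Pool.Agent.H68.Tr
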