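import Pool.Agent.H68.Tr.Median
import Pool.Agent.H68.Tr.Greedy
import Pool.Agent.H68.Tr.Root

/-!
# Trees made of an in-arborescence and an out-arborescence in tournaments

Every tournament on `k + l - 1` vertices contains every oriented tree with `k` edges and `l` leaves
that has a vertex `r` with at least one in-neighbour and at least one out-neighbour such that
every vertex is reachable from `r` or reaches `r` along a directed path.
-/

namespace Pool.Agent.H68.Tr.BiArb

open Finset Pool.Agent.H68.Tr

open Classical in
lemma card_shift (P : ℕ → Prop) (c j t : ℕ) :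
    ((Ioc j t).filter (fun s => P (c + s))).card = ((Ioc (c + j) (c + t)).filter P).card := by
  apply card_nbij' (fun s => c + s) (fun s => s - c)
  · intro s hs
    simp only [mem_coe, mem_filter, mem_Ioc] at hs ⊢
    exact ⟨by omega, hs.2⟩
  · intro s hs
    simp only [mem_coe, mem_filter, mem_Ioc] at hs ⊢
    have e : c + (s - c) = s := by omega
    exact ⟨by omega, by rw [e]; exact hs.2⟩
  · intro s _
    show c + s - c = s
    omega
  · intro s hs
    rw [mem_coe, mem_filter, mem_Ioc] at hs
    show c + (s - c) = s
    omega

open Classical in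
lemma card_refl (P : ℕ → Prop) (c j t : ℕ) (htc : t ≤ c) :
    ((Ioc j t).filter (fun s => P (c - s))).card = ((Ico (c - t) (c - j)).filter P).card := by
  apply card_nbij' (fun s => c - s) (fun s => c - s)
  · intro s hs
    simp only [mem_coe, mem_filter, mem_Ioc, mem_Ico] at hs ⊢
    exact ⟨by omega, hs.2⟩
  · intro s hs
    simp only [mem_coe, mem_filter, mem_Ioc, mem_Ico] at hs ⊢
    have e : c - (c - s) = s := by omega
    exact ⟨by omega, by rw [e]; exact hs.2⟩
  · intro s hs
    rw [mem_coe, mem_filter, mem_Ioc] at hs
    show c - (c - s) = s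
    omega
  · intro s hs
    rw [mem_coe, mem_filter, mem_Ico] at hs
    show c - (c - s) = s
    omega

open Classical in
lemma card_pos_eq {W : Type} [Fintype W] (N : ℕ) (σ : W ≃ Fin N) (w : ℕ → W)
    (hw1 : ∀ s, s < N → (σ (w s) : ℕ) = s) (hw2 : ∀ u, w (σ u) = u)
    (P : W → Prop) (F : Finset ℕ) (hF : ∀ s ∈ F, s < N) :
    (F.filter (fun s => P (w s))).card = (univ.filter (fun u => (σ u : ℕ) ∈ F ∧ P u)).card := by
  apply card_nbij' w (fun u => (σ u : ℕ))
  · intro s hs
    rw [mem_coe, mem_filter] at hs
    rw [mem_coe, mem_filter]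
    refine ⟨mem_univ _, ?_, hs.2⟩
    rw [hw1 s (hF s hs.1)]
    exact hs.1
  · intro u hu
    rw [mem_coe, mem_filter] at hu
    rw [mem_coe, mem_filter]
    refine ⟨hu.2.1, ?_⟩
    rw [hw2 u]
    exact hu.2.2
  · intro s hs
    rw [mem_coe, mem_filter] at hs
    exact hw1 s (hF s hs.1)
  · intro u _
    exact hw2 u

open Classical in
/-- Every tournament on at least `k + l - 1` vertices contains every oriented tree with `k` edges
and `l` leaves that consists of an in-arborescence and an out-arborescence, both with at least one
arc, glued at their roots. -/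
theorem result {V W : Type} [Fintype V] [Fintype W] (E : V → V → Prop) (R : W → W → Prop)
    (hE : ∀ x y, E x y → ¬ E y x)
    (hT : (SimpleGraph.fromRel E).IsTree)
    (r : V) (hin : ∃ x, E x r) (hout : ∃ x, E r x)
    (hr : ∀ v, Relation.ReflTransGen E r v ∨ Relation.ReflTransGen E v r)
    (hR0 : ∀ x, ¬ R x x) (hR : ∀ x y, x ≠ y → (R x y ↔ ¬ R y x))
    (hW : (SimpleGraph.fromRel E).edgeSet.ncard +
      {v : V | ((SimpleGraph.fromRel E).neighborSet v).ncard = 1}.ncard - 1 ≤ Fintype.card W) :
    ∃ f : V → W, Function.Injective f ∧ ∀ x y, E x y → R (f x) (f y) := by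
  have hEne : ∀ x y, E x y → x ≠ y := fun x y h e => hE x y h (by rw [e] at h ⊢; exact h)
  have hadj : ∀ x y, E x y → (SimpleGraph.fromRel E).Adj x y := fun x y h =>
    (SimpleGraph.fromRel_adj E x y).2 ⟨hEne x y h, Or.inl h⟩
  obtain ⟨p, d, hp, hdich⟩ := rooted (SimpleGraph.fromRel E) hT r
  have out1 : ∀ v, Relation.ReflTransGen E r v → v ≠ r →
      E (p v) v ∧ Relation.ReflTransGen E r (p v) := by
    intro v hv
    induction hv with
    | refl => intro h; exact absurd rfl h
    | tail hb hbc ih =>
      rename_i b c
      intro hc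
      rcases hdich b c (hadj b c hbc) with h | h
      · rw [h.2]; exact ⟨hbc, hb⟩
      · have := (ih h.1).1
        rw [h.2] at this
        exact absurd this (hE b c hbc)
  have in1 : ∀ v, Relation.ReflTransGen E v r → v ≠ r →
      E v (p v) ∧ Relation.ReflTransGen E (p v) r := by
    intro v hv
    induction hv using Relation.ReflTransGen.head_induction_on with
    | refl => intro h; exact absurd rfl h
    | head hac hc ih =>
      rename_i a c
      intro ha
      rcases hdich a c (hadj a c hac) with h | h
      · have := (ih h.1).1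
        rw [h.2] at this
        exact absurd this (hE a c hac)
      · rw [h.2]; exact ⟨hac, hc⟩
  have excl : ∀ v, Relation.ReflTransGen E r v → Relation.ReflTransGen E v r → v = r := by
    intro v h1 h2
    by_contra hv
    exact hE _ _ (out1 v h1 hv).1 (in1 v h2 hv).1
  let O : Finset V := univ.filter (fun v => Relation.ReflTransGen E r v)
  let I : Finset V := univ.filter (fun v => Relation.ReflTransGen E v r)
  have memO : ∀ v, v ∈ O ↔ Relation.ReflTransGen E r v := fun v => by simp [O]
  have memI : ∀ v, v ∈ I ↔ Relation.ReflTransGen E v r := fun v => by simp [I]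
  have hrO : r ∈ O := (memO r).2 Relation.ReflTransGen.refl
  have hrI : r ∈ I := (memI r).2 Relation.ReflTransGen.refl
  have hpO : ∀ v ∈ O, v ≠ r → p v ∈ O ∧ d (p v) < d v := fun v hv hvr =>
    ⟨(memO _).2 (out1 v ((memO v).1 hv) hvr).2, (hp v hvr).2⟩
  have hpI : ∀ v ∈ I, v ≠ r → p v ∈ I ∧ d (p v) < d v := fun v hv hvr =>
    ⟨(memI _).2 (in1 v ((memI v).1 hv) hvr).2, (hp v hvr).2⟩
  have hOI : O ∩ I = {r} := by
    ext v
    rw [mem_inter, mem_singleton, memO, memI]
    constructor
    · rintro ⟨h1, h2⟩; exact excl v h1 h2
    · rintro rfl; exact ⟨Relation.ReflTransGen.refl, Relation.ReflTransGen.refl⟩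
  have hUI : O ∪ I = univ := by
    ext v
    rw [mem_union, memO, memI]
    exact ⟨fun _ => mem_univ v, fun _ => hr v⟩
  have hcardOI : O.card + I.card = Fintype.card V + 1 := by
    have := card_union_add_card_inter O I
    rw [hUI, hOI, card_singleton, card_univ] at this
    omega
  have hk : (SimpleGraph.fromRel E).edgeSet.ncard + 1 = Fintype.card V := by
    rw [← hT.card_edgeFinset, Set.ncard_eq_toFinset_card']
    rfl
  let LO : Finset V := O.filter (fun v => ∀ c ∈ O, c ≠ r → p c ≠ v)
  let LI : Finset V := I.filter (fun v => ∀ c ∈ I, c ≠ r → p c ≠ v)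
  obtain ⟨xo, hxo⟩ := hout
  obtain ⟨xi, hxi⟩ := hin
  have hxor : xo ≠ r := (hEne _ _ hxo).symm
  have hxir : xi ≠ r := hEne _ _ hxi
  have hpxo : p xo = r := by
    rcases hdich r xo (hadj _ _ hxo) with h | h
    · exact h.2
    · exact absurd rfl h.1
  have hpxi : p xi = r := by
    rcases hdich xi r (hadj _ _ hxi) with h | h
    · exact absurd rfl h.1
    · exact h.2
  have hxoO : xo ∈ O := (memO xo).2 (Relation.ReflTransGen.single hxo)
  have hxiI : xi ∈ I := (memI xi).2 (Relation.ReflTransGen.single hxi)
  have hrLO : ∀ v ∈ LO, v ≠ r := by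
    rintro v hv rfl
    exact (mem_filter.1 hv).2 xo hxoO hxor hpxo
  have hrLI : ∀ v ∈ LI, v ≠ r := by
    rintro v hv rfl
    exact (mem_filter.1 hv).2 xi hxiI hxir hpxi
  have hO2 : 2 ≤ O.card := by
    have : ({xo, r} : Finset V) ⊆ O := by
      intro y hy
      rw [mem_insert, mem_singleton] at hy
      rcases hy with rfl | rfl
      · exact hxoO
      · exact hrO
    have := card_le_card this
    rwa [card_pair hxor] at this
  have hI2 : 2 ≤ I.card := by
    have : ({xi, r} : Finset V) ⊆ I := by
      intro y hy
      rw [mem_insert, mem_singleton] at hy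
      rcases hy with rfl | rfl
      · exact hxiI
      · exact hrI
    have := card_le_card this
    rwa [card_pair hxir] at this
  have hleaves : LO.card + LI.card ≤
      {v : V | ((SimpleGraph.fromRel E).neighborSet v).ncard = 1}.ncard := by
    rw [← card_union_of_disjoint, Set.ncard_eq_toFinset_card']
    · apply card_le_card
      intro v hv
      rw [Set.mem_toFinset, Set.mem_ofPred_eq]
      have hvr : v ≠ r := by
        rcases mem_union.1 hv with h | h
        · exact hrLO v h
        · exact hrLI v h
      have : (SimpleGraph.fromRel E).neighborSet v = {p v} := by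
        ext u
        rw [SimpleGraph.mem_neighborSet, Set.mem_singleton_iff]
        constructor
        · intro hu
          rcases hdich u v hu.symm with h | h
          · exact h.2.symm
          · exfalso
            rcases mem_union.1 hv with hv | hv
            · rw [mem_filter] at hv
              rcases hr u with h1 | h1
              · exact hv.2 u ((memO u).2 h1) h.1 h.2
              · have h2 := (in1 u h1 h.1).2
                rw [h.2] at h2
                exact hvr (excl v ((memO v).1 hv.1) h2)
            · rw [mem_filter] at hv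
              rcases hr u with h1 | h1
              · have h2 := (out1 u h1 h.1).2
                rw [h.2] at h2
                exact hvr (excl v h2 ((memI v).1 hv.1))
              · exact hv.2 u ((memI u).2 h1) h.1 h.2
        · rintro rfl
          exact (hp v hvr).1.symm
      rw [this, Set.ncard_singleton]
    · rw [disjoint_left]
      intro v h1 h2
      exact hrLO v h1 (excl v ((memO v).1 (mem_filter.1 h1).1) ((memI v).1 (mem_filter.1 h2).1))
  -- the median order
  obtain ⟨σ, hm1, hm2⟩ := exists_median R ⟨hR0, hR⟩
  set c := I.card + LI.card - 2 with hc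
  set io := O.card + LO.card - 2 with hio
  have hcio : c + io < (Fintype.card W) := by omega
  let w : ℕ → W := fun s => if h : s < (Fintype.card W) then σ.symm ⟨s, h⟩ else σ.symm ⟨c + io, hcio⟩
  have hw1 : ∀ s, s < (Fintype.card W) → (σ (w s) : ℕ) = s := by
    intro s hs
    simp only [w, dif_pos hs, Equiv.apply_symm_apply]
  have hw2 : ∀ u, w (σ u) = u := by
    intro u
    simp only [w, dif_pos (σ u).2, Fin.eta, Equiv.symm_apply_apply]
  have hwinj : ∀ s t, s < (Fintype.card W) → t < (Fintype.card W) → w s = w t → s = t := by
    intro s t hs ht h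
    rw [← hw1 s hs, ← hw1 t ht, h]
  have M1 : ∀ a b, a < b → b < (Fintype.card W) → ((Ioc a b).filter (fun s => R (w s) (w a))).card ≤
      ((Ioc a b).filter (fun s => R (w a) (w s))).card := by
    intro a b hab hb
    have hF : ∀ s ∈ Ioc a b, s < (Fintype.card W) := by intro s hs; rw [mem_Ioc] at hs; omega
    rw [card_pos_eq (Fintype.card W) σ w hw1 hw2 (fun u => R u (w a)) _ hF,
      card_pos_eq (Fintype.card W) σ w hw1 hw2 (fun u => R (w a) u) _ hF]
    have h := hm1 (w a) (b + 1)
    have e : ∀ u : W, (σ (w a) < σ u ∧ (σ u : ℕ) < b + 1) ↔ (σ u : ℕ) ∈ Ioc a b := by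
      intro u
      rw [Fin.lt_def, hw1 a (by omega), mem_Ioc]
      omega
    refine le_trans (le_of_eq (congrArg Finset.card ?_)) (h.trans (le_of_eq (congrArg Finset.card ?_)))
    · ext u; rw [mem_filter, mem_filter, e u]
    · ext u; rw [mem_filter, mem_filter, e u]
  have M2 : ∀ a b, a < b → b < (Fintype.card W) → ((Ico a b).filter (fun s => R (w b) (w s))).card ≤
      ((Ico a b).filter (fun s => R (w s) (w b))).card := by
    intro a b hab hb
    have hF : ∀ s ∈ Ico a b, s < (Fintype.card W) := by intro s hs; rw [mem_Ico] at hs; omega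
    rw [card_pos_eq (Fintype.card W) σ w hw1 hw2 (fun u => R u (w b)) _ hF,
      card_pos_eq (Fintype.card W) σ w hw1 hw2 (fun u => R (w b) u) _ hF]
    have h := hm2 (w b) a
    have e : ∀ u : W, (a ≤ (σ u : ℕ) ∧ σ u < σ (w b)) ↔ (σ u : ℕ) ∈ Ico a b := by
      intro u
      rw [Fin.lt_def, hw1 b hb, mem_Ico]
    refine le_trans (le_of_eq (congrArg Finset.card ?_)) (h.trans (le_of_eq (congrArg Finset.card ?_)))
    · ext u; rw [mem_filter, mem_filter, e u]
    · ext u; rw [mem_filter, mem_filter, e u]
  -- the two embeddings
  obtain ⟨f, hf0, hfle, hfinj, hfz, hfR⟩ := embed O r hrO p d (fun s t => R (w (c + s)) (w (c + t)))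
    hpO io (by
      have e : O.card + LO.card ≤ io + 2 := by omega
      convert e)
    (by
      intro s t hst hti hn
      have hne : w (c + t) ≠ w (c + s) := fun e => by
        have := hwinj _ _ (by omega) (by omega) e
        omega
      exact (hR _ _ hne).2 hn)
    (by
      intro j t hjt hti
      rw [card_shift (fun s => R (w s) (w (c + j))) c j t,
        card_shift (fun s => R (w (c + j)) (w s)) c j t]
      exact M1 (c + j) (c + t) (by omega) (by omega))
  obtain ⟨g, hg0, hgle, hginj, hgz, hgR⟩ := embed I r hrI p d (fun s t => R (w (c - t)) (w (c - s)))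
    hpI c (by
      have e : I.card + LI.card ≤ c + 2 := by omega
      convert e)
    (by
      intro s t hst hti hn
      have hne : w (c - s) ≠ w (c - t) := fun e => by
        have := hwinj _ _ (by omega) (by omega) e
        omega
      exact (hR _ _ hne).2 hn)
    (by
      intro j t hjt hti
      rw [card_refl (fun s => R (w (c - j)) (w s)) c j t hti,
        card_refl (fun s => R (w s) (w (c - j))) c j t hti]
      exact M2 (c - t) (c - j) (by omega) (by omega))
  let F : V → W := fun v => if v ∈ O then w (c + f v) else w (c - g v)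
  have FO : ∀ v ∈ O, F v = w (c + f v) := fun v hv => if_pos hv
  have FI : ∀ v ∈ I, F v = w (c - g v) := by
    intro v hv
    by_cases hvO : v ∈ O
    · have hvr := excl v ((memO v).1 hvO) ((memI v).1 hv)
      rw [FO v hvO, hvr, hf0, hg0]
      rfl
    · exact if_neg hvO
  have mixed : ∀ v ∈ O, ∀ v' ∈ I, F v = F v' → v = v' := by
    intro v hv v' hv' h
    rw [FO v hv, FI v' hv'] at h
    have h1 := hfle v hv
    have h2 := hgle v' hv'
    have := hwinj _ _ (by omega) (by omega) h
    rw [hfz v hv (by omega), hgz v' hv' (by omega)]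
  refine ⟨F, ?_, ?_⟩
  · intro v v' h
    rcases hr v with hv | hv <;> rcases hr v' with hv' | hv'
    · rw [← memO] at hv hv'
      rw [FO v hv, FO v' hv'] at h
      have h1 := hfle v hv
      have h2 := hfle v' hv'
      have := hwinj _ _ (by omega) (by omega) h
      exact hfinj hv hv' (by omega)
    · rw [← memO] at hv
      rw [← memI] at hv'
      exact mixed v hv v' hv' h
    · rw [← memI] at hv
      rw [← memO] at hv'
      exact (mixed v' hv' v hv h.symm).symm
    · rw [← memI] at hv hv'
      rw [FI v hv, FI v' hv'] at h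
      have h1 := hgle v hv
      have h2 := hgle v' hv'
      have := hwinj _ _ (by omega) (by omega) h
      exact hginj hv hv' (by omega)
  · intro x y hxy
    rcases hdich x y (hadj x y hxy) with h | h
    · rcases hr y with hy | hy
      · have hx := (out1 y hy h.1).2
        rw [h.2] at hx
        rw [FO x ((memO x).2 hx), FO y ((memO y).2 hy)]
        have := hfR y ((memO y).2 hy) h.1
        rw [h.2] at this
        exact this
      · have := (in1 y hy h.1).1
        rw [h.2] at this
        exact absurd this (hE x y hxy)
    · rcases hr x with hx | hx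
      · have := (out1 x hx h.1).1
        rw [h.2] at this
        exact absurd this (hE x y hxy)
      · have hy := (in1 x hx h.1).2
        rw [h.2] at hy
        rw [FI x ((memI x).2 hx), FI y ((memI y).2 hy)]
        have := hgR x ((memI x).2 hx) h.1
        rw [h.2] at this
        exact this

end Pool.Agent.H68.Tr.BiArb
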