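import Mathlib

/-!
# Median orders of tournaments
-/

namespace Pool.Agent.H68.Tr

open Finset

/-- A tournament: exactly one arc between any two distinct vertices, no loops. -/
def IsTournament {V : Type} (T : V → V → Prop) : Prop :=
  (∀ a, ¬ T a a) ∧ ∀ a b, a ≠ b → (T a b ↔ ¬ T b a)

lemma exists_sort {V : Type} [Fintype V] (r : V → ℕ) (hr : Function.Injective r) :
    ∃ σ : V ≃ Fin (Fintype.card V), ∀ u w, σ u < σ w ↔ r u < r w := by
  letI : LinearOrder V := LinearOrder.lift' r hr
  let φ := monoEquivOfFin V rfl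
  refine ⟨φ.symm.toEquiv, fun u w => ?_⟩
  exact φ.symm.lt_iff_lt

open Classical in
/-- number of forward arcs -/
noncomputable def fw {V : Type} [Fintype V] (T : V → V → Prop) {n : ℕ} (σ : V ≃ Fin n) : ℤ :=
  ∑ u : V, ∑ w : V, if T u w ∧ σ u < σ w then 1 else 0

open Classical in
lemma sum_cross {V : Type} [Fintype V] (D : V → V → ℤ) (v : V)
    (h : ∀ u w, u ≠ v → w ≠ v → D u w = 0) (hv : D v v = 0) :
    ∑ u, ∑ w, D u w = ∑ w, (D v w + D w v) := by
  have h1 : ∀ u, ∑ w, D u w = (if u = v then ∑ w, D v w else 0) + D u v := by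
    intro u
    by_cases hu : u = v
    · subst hu; simp [hv]
    · rw [if_neg hu, zero_add]
      rw [Finset.sum_eq_single v]
      · intro w _ hw
        exact h u w hu hw
      · intro hh; exact absurd (Finset.mem_univ _) hh
  rw [Finset.sum_congr rfl fun u _ => h1 u, Finset.sum_add_distrib, Finset.sum_add_distrib]
  simp

open Classical in
/-- An order with the largest number of forward arcs is a median order. -/
lemma med_of_max {V : Type} [Fintype V] (T : V → V → Prop) (hT : IsTournament T)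
    (σ : V ≃ Fin (Fintype.card V)) (hσ : ∀ σ' : V ≃ Fin (Fintype.card V), fw T σ' ≤ fw T σ)
    (v : V) (j : ℕ) :
      (univ.filter (fun u => (σ v < σ u ∧ (σ u : ℕ) < j) ∧ T u v)).card ≤
      (univ.filter (fun u => (σ v < σ u ∧ (σ u : ℕ) < j) ∧ T v u)).card := by
  by_contra hcon
  push Not at hcon
  have hne : (univ.filter (fun u => (σ v < σ u ∧ (σ u : ℕ) < j) ∧ T u v)).Nonempty := by
    rw [← Finset.card_pos]; omega
  obtain ⟨u0, hu0⟩ := hne
  simp only [Finset.mem_filter, Finset.mem_univ, true_and] at hu0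
  have hj : (σ v : ℕ) < j := lt_trans hu0.1.1 hu0.1.2
  let r : V → ℕ := fun u => if u = v then 2 * j - 1 else 2 * (σ u : ℕ)
  have hr : Function.Injective r := by
    intro a b hab
    simp only [r] at hab
    split_ifs at hab with ha hb hb
    · rw [ha, hb]
    · omega
    · omega
    · apply σ.injective
      ext
      omega
  obtain ⟨σ', hσ'⟩ := exists_sort r hr
  have hlt := hσ σ'
  have hD : fw T σ' - fw T σ = ∑ w, (((if T v w ∧ σ' v < σ' w then (1:ℤ) else 0)
      - (if T v w ∧ σ v < σ w then (1:ℤ) else 0)) + ((if T w v ∧ σ' w < σ' v then (1:ℤ) else 0)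
      - (if T w v ∧ σ w < σ v then (1:ℤ) else 0))) := by
    unfold fw
    rw [← Finset.sum_sub_distrib]
    simp_rw [← Finset.sum_sub_distrib]
    apply sum_cross (fun u w => (if T u w ∧ σ' u < σ' w then (1:ℤ) else 0)
      - (if T u w ∧ σ u < σ w then (1:ℤ) else 0)) v
    · intro u w hu hw
      have : (σ' u < σ' w) ↔ (σ u < σ w) := by
        rw [hσ']
        simp only [r, if_neg hu, if_neg hw]
        rw [Fin.lt_def]
        omega
      simp only [this, sub_self]
    · simp
  have hw : ∀ w, (((if T v w ∧ σ' v < σ' w then (1:ℤ) else 0)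
      - (if T v w ∧ σ v < σ w then (1:ℤ) else 0)) + ((if T w v ∧ σ' w < σ' v then (1:ℤ) else 0)
      - (if T w v ∧ σ w < σ v then (1:ℤ) else 0))) =
      (if (σ v < σ w ∧ (σ w : ℕ) < j) ∧ T w v then (1:ℤ) else 0)
      - (if (σ v < σ w ∧ (σ w : ℕ) < j) ∧ T v w then (1:ℤ) else 0) := by
    intro w
    by_cases hwv : w = v
    · subst hwv
      simp
    · have h1 : (σ' v < σ' w) ↔ j ≤ (σ w : ℕ) := by
        rw [hσ']
        simp only [r, if_neg hwv, if_true]
        omega
      have h2 : (σ' w < σ' v) ↔ (σ w : ℕ) < j := by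
        rw [hσ']
        simp only [r, if_neg hwv, if_true]
        omega
      have h3 : (σ v < σ w) ↔ (σ v : ℕ) < (σ w : ℕ) := Fin.lt_def
      have h4 : (σ w < σ v) ↔ (σ w : ℕ) < (σ v : ℕ) := Fin.lt_def
      have h5 : (σ w : ℕ) ≠ (σ v : ℕ) := fun hh => hwv (σ.injective (Fin.ext hh))
      simp only [h1, h2, h3, h4]
      by_cases hvw : T v w
      · have hwv' : ¬ T w v := (hT.2 v w (Ne.symm hwv)).1 hvw
        simp only [hvw, hwv', true_and, false_and, and_true, and_false, if_false]
        split_ifs <;> first | omega | norm_num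
      · have hwv' : T w v := (hT.2 w v hwv).2 hvw
        simp only [hvw, hwv', true_and, false_and, and_true, and_false, if_false]
        split_ifs <;> first | omega | norm_num
  rw [Finset.sum_congr rfl fun w _ => hw w, Finset.sum_sub_distrib] at hD
  have e1 : ∑ w, (if (σ v < σ w ∧ (σ w : ℕ) < j) ∧ T w v then (1:ℤ) else 0)
      = ((univ.filter (fun u => (σ v < σ u ∧ (σ u : ℕ) < j) ∧ T u v)).card : ℤ) := by
    rw [Finset.card_filter]; push_cast; rfl
  have e2 : ∑ w, (if (σ v < σ w ∧ (σ w : ℕ) < j) ∧ T v w then (1:ℤ) else 0)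
      = ((univ.filter (fun u => (σ v < σ u ∧ (σ u : ℕ) < j) ∧ T v u)).card : ℤ) := by
    rw [Finset.card_filter]; push_cast; rfl
  rw [e1, e2] at hD
  omega

open Classical in
/-- Median orders, both interval conditions. -/
lemma exists_median {V : Type} [Fintype V] (T : V → V → Prop) (hT : IsTournament T) :
    ∃ σ : V ≃ Fin (Fintype.card V), (∀ (v : V) (j : ℕ),
      (univ.filter (fun u => (σ v < σ u ∧ (σ u : ℕ) < j) ∧ T u v)).card ≤
      (univ.filter (fun u => (σ v < σ u ∧ (σ u : ℕ) < j) ∧ T v u)).card) ∧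
      (∀ (v : V) (j : ℕ),
      (univ.filter (fun u => (j ≤ (σ u : ℕ) ∧ σ u < σ v) ∧ T v u)).card ≤
      (univ.filter (fun u => (j ≤ (σ u : ℕ) ∧ σ u < σ v) ∧ T u v)).card) := by
  haveI : Nonempty (V ≃ Fin (Fintype.card V)) := ⟨Fintype.equivFin V⟩
  obtain ⟨σ, hσ⟩ := Finite.exists_max (fun σ : V ≃ Fin (Fintype.card V) => fw T σ)
  refine ⟨σ, med_of_max T hT σ hσ, fun v j => ?_⟩
  have hT' : IsTournament (fun a b => T b a) :=
    ⟨fun a => hT.1 a, fun a b hab => hT.2 b a (Ne.symm hab)⟩
  have key : ∀ τ : V ≃ Fin (Fintype.card V),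
      fw (fun a b => T b a) (τ.trans Fin.revPerm) = fw T τ := by
    intro τ
    unfold fw
    rw [Finset.sum_comm]
    refine Finset.sum_congr rfl fun u _ => Finset.sum_congr rfl fun w _ => ?_
    simp only [Equiv.trans_apply, Fin.revPerm_apply, Fin.rev_lt_rev]
  have h := med_of_max (fun a b => T b a) hT' (σ.trans Fin.revPerm) (fun τ => by
    have h1 := key (τ.trans Fin.revPerm)
    have h2 : (τ.trans Fin.revPerm).trans Fin.revPerm = τ := by
      ext u; simp
    rw [h2] at h1
    rw [h1, key σ]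
    exact hσ _) v (Fintype.card V - j)
  have e : ∀ u : V, (((σ.trans Fin.revPerm) v < (σ.trans Fin.revPerm) u ∧
      (((σ.trans Fin.revPerm) u : Fin (Fintype.card V)) : ℕ) < Fintype.card V - j)) ↔
      (j ≤ (σ u : ℕ) ∧ σ u < σ v) := by
    intro u
    simp only [Equiv.trans_apply, Fin.revPerm_apply, Fin.rev_lt_rev, Fin.val_rev]
    have := (σ u).2
    constructor
    · rintro ⟨h1, h2⟩; exact ⟨by omega, h1⟩
    · rintro ⟨h1, h2⟩; exact ⟨h2, by omega⟩
  simp only [e] at h
  exact h

end Pool.Agent.H68.Tr
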